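import Mathlib
import Pool.Agent.Helper76.DL.Defs
import Pool.Agent.Helper76.DL.Final

set_option autoImplicit false

namespace Pool.Agent.Results.MP_0568c2_al.KStarInfinite

open Pool.Agent.Helper76.DL

/-- `k* = ∞`: there is no constant `k` with `d(G) - d(M) ≤ k` for all finite soluble groups `G`
and all maximal subgroups `M` of `G`. -/
theorem result : kStar = ⊤ := kStar_eq_top

end Pool.Agent.Results.MP_0568c2_al.KStarInfinite
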